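import Mathlib
import Pool.Agent.N546.PN.Stm

/-!
# Stable `p`-adic points (project PN of helper546; leaf PADN, helper712)
-/

set_option autoImplicit false

namespace Pool.Agent.N712.PN

open Finset hiding val
open Filter Topology Pool.Agent.N546.PN

/-- the values of a form on a line through the origin -/
lemma val_smul {n D : ℕ} {K : Type} [CommRing K] (c : Mon n D → K) (x : Fin (n + 1) → K) (t : K) :
    val c (fun i => t * x i) = t ^ D * val c x := by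
  unfold val
  rw [mul_sum]
  refine sum_congr rfl fun m _ => ?_
  have h1 : (∏ i, (t * x i) ^ (m.1 i)) = t ^ D * ∏ i, x i ^ (m.1 i) := by
    simp_rw [mul_pow]
    rw [prod_mul_distrib, prod_pow_eq_pow_sum, (mem_piAntidiag.1 m.2).1]
  rw [h1]
  ring

lemma pt_smul {ι : Type} {n : ℕ} {e : ι → ℕ} (T : Typ ι e) {K : Type} [Field K]
    (c : (k : ι) → Mon n (e k + 1) → K) (x : Fin (n + 1) → K) (t : K) (ht : t ≠ 0)
    (h : Pt T c x) : Pt T c (fun i => t * x i) := by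
  refine ⟨fun k => ?_, ?_⟩
  · rw [val_smul]
    exact mul_ne_zero (pow_ne_zero _ ht) (h.1 k)
  · simp_rw [val_smul]
    exact T.sc K _ t ht h.2

/-- a good point may be taken integral -/
lemma pt_int {ι : Type} {n : ℕ} {e : ι → ℕ} (T : Typ ι e) (p : ℕ) [Fact p.Prime]
    (c : (k : ι) → Mon n (e k + 1) → ℚ_[p]) (x : Fin (n + 1) → ℚ_[p]) (h : Pt T c x) :
    ∃ x' : Fin (n + 1) → ℚ_[p], (∀ i, ‖x' i‖ ≤ 1) ∧ Pt T c x' := by
  obtain ⟨M, hM⟩ : ∃ M, M = 1 + ∑ i, ‖x i‖ := ⟨_, rfl⟩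
  have hM1 : ∀ i, ‖x i‖ ≤ M := by
    intro i
    have := single_le_sum (f := fun i => ‖x i‖) (fun i _ => norm_nonneg _) (mem_univ i)
    rw [hM]
    linarith
  have hM0 : 0 < M := by
    rw [hM]
    have : 0 ≤ ∑ i, ‖x i‖ := sum_nonneg fun i _ => norm_nonneg _
    linarith
  obtain ⟨t, ht1, ht2⟩ := NormedField.exists_norm_lt ℚ_[p] (one_div_pos.2 hM0)
  refine ⟨fun i => t * x i, fun i => ?_, pt_smul T c x t (norm_pos_iff.1 ht1) h⟩
  rw [norm_mul]
  calc ‖t‖ * ‖x i‖ ≤ 1 / M * M := mul_le_mul ht2.le (hM1 i) (norm_nonneg _) (by positivity)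
    _ = 1 := by field_simp

/-- integral approximation -/
lemma approx (p : ℕ) [Fact p.Prime] (x : ℚ_[p]) (hx : ‖x‖ ≤ 1) (N : ℕ) :
    ∃ a : ℤ, ‖(a : ℚ_[p]) - x‖ ≤ (p : ℝ) ^ (-(N : ℤ)) := by
  refine ⟨(PadicInt.appr ⟨x, hx⟩ N : ℕ), ?_⟩
  have h1 := (PadicInt.norm_le_pow_iff_mem_span_pow _ N).2 (PadicInt.appr_spec N ⟨x, hx⟩)
  rw [norm_sub_rev] at h1
  have h2 : ‖(((PadicInt.appr ⟨x, hx⟩ N : ℕ) : ℤ_[p]) - ⟨x, hx⟩ : ℤ_[p])‖ =
      ‖(((PadicInt.appr ⟨x, hx⟩ N : ℕ) : ℤ) : ℚ_[p]) - x‖ := by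
    rw [PadicInt.norm_def]
    congr 1
  rw [← h2]
  exact h1

/-- leaf PADN -/
theorem padn_ (h1 : S_DEL) (h2 : S_SMP) (h3 : ∀ (p : ℕ) [Fact p.Prime], S_CLO ℚ_[p])
    (h4 : ∀ (p : ℕ) [Fact p.Prime], S_OPE ℚ_[p]) : S_PADN := by
  classical
  intro n ι _ _ e T p _ ε hε
  have hp : p.Prime := Fact.out
  obtain ⟨Δ, hΔ0, hΔ⟩ := h1 n ι e
  obtain ⟨N₁, H₁, hcount⟩ := h2 ((k : ι) × Mon n (e k + 1)) Δ hΔ0 p hp ε hε
  let E : Type := (k : ι) → Mon n (e k + 1) → ℚ_[p]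
  let A : Set E := {c | ∃ x, Pt T c x}
  let ev : E → ℚ_[p] := fun c => MvPolynomial.aeval (fun q : (k : ι) × Mon n (e k + 1) => c q.1 q.2) Δ
  have hev : Continuous ev := by
    have e1 : ev = fun c : E => MvPolynomial.eval (fun q : (k : ι) × Mon n (e k + 1) => c q.1 q.2)
        (MvPolynomial.map (algebraMap ℤ ℚ_[p]) Δ) := by
      funext c
      simp only [ev]
      rw [MvPolynomial.aeval_def, MvPolynomial.eval₂_eq_eval_map]
    rw [e1]
    refine (MvPolynomial.continuous_eval _).comp ?_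
    exact continuous_pi fun q => (continuous_apply q.2).comp (continuous_apply q.1)
  let K₀ : Set E := Set.pi Set.univ fun k => Set.pi Set.univ fun _ => Metric.closedBall (0 : ℚ_[p]) 1
  let K : Set E := (K₀ ∩ closure A) ∩ {c | (p : ℝ) ^ (-(N₁ : ℤ)) ≤ ‖ev c‖}
  have hK₀ : IsCompact K₀ :=
    isCompact_univ_pi fun k => isCompact_univ_pi fun _ => isCompact_closedBall _ _
  have hK : IsCompact K :=
    (hK₀.inter_right isClosed_closure).inter_right (isClosed_le continuous_const hev.norm)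
  have hp0 : (0 : ℝ) < p := by exact_mod_cast hp.pos
  have hp1 : (1 : ℝ) < p := by exact_mod_cast hp.one_lt
  have hlocal : ∀ c ∈ K, ∃ (x : Fin (n + 1) → ℚ_[p]) (δ : ℝ), 0 < δ ∧ (∀ i, ‖x i‖ ≤ 1) ∧
      ∀ (c' : E) (x' : Fin (n + 1) → ℚ_[p]),
        (∀ k m, ‖c' k m - c k m‖ < δ) → (∀ i, ‖x' i - x i‖ < δ) → Pt T c' x' := by
    rintro c ⟨⟨_, hcA⟩, hcN⟩
    have hsm : Smo c := by
      by_contra hns
      have h5 := hΔ ℚ_[p] c hns
      have h6 : (p : ℝ) ^ (-(N₁ : ℤ)) ≤ ‖ev c‖ := hcN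
      simp only [ev] at h6
      rw [h5, norm_zero] at h6
      have h7 : 0 < (p : ℝ) ^ (-(N₁ : ℤ)) := zpow_pos hp0 _
      linarith
    obtain ⟨s, hs1, hs2⟩ := mem_closure_iff_seq_limit.1 hcA
    obtain ⟨x, hx⟩ := h3 p n ι e T s c hs2 hs1 hsm
    obtain ⟨x', hx'1, hx'2⟩ := pt_int T p c x hx
    obtain ⟨δ, hδ, h5⟩ := h4 p n ι e T c x' hx'2
    exact ⟨x', δ, hδ, hx'1, h5⟩
  choose! X δ hδ hX1 hX2 using hlocal
  obtain ⟨t, htK, hcov⟩ := hK.elim_nhds_subcover (fun c => Metric.ball c (δ c))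
    (fun c hc => Metric.ball_mem_nhds c (hδ c hc))
  -- the exponent
  have hN : ∃ N : ℕ, ∀ c ∈ t, (p : ℝ) ^ (-(N : ℤ)) < δ c := by
    have hNc : ∀ c : E, ∃ N : ℕ, c ∈ t → ∀ M, N ≤ M → (p : ℝ) ^ (-(M : ℤ)) < δ c := by
      intro c
      by_cases hc : c ∈ t
      · obtain ⟨N, hN⟩ := exists_pow_lt_of_lt_one (hδ c (htK c hc)) (inv_lt_one_of_one_lt₀ hp1)
        refine ⟨N, fun _ M hM => lt_of_le_of_lt ?_ hN⟩
        rw [zpow_neg, zpow_natCast, inv_pow]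
        exact inv_anti₀ (by positivity) (pow_le_pow_right₀ hp1.le hM)
      · exact ⟨0, fun h => absurd h hc⟩
    choose Nc hNc using hNc
    exact ⟨t.sup Nc, fun c hc => hNc c hc _ (Finset.le_sup hc)⟩
  obtain ⟨N, hN⟩ := hN
  -- the exceptional families
  have hexc : ∀ c : (k : ι) → Mon n (e k + 1) → ℤ, (∃ x : Fin (n + 1) → ℚ_[p], Pt T (ic c ℚ_[p]) x) →
      (¬ ∃ a : Fin (n + 1) → ℤ, Stab T p N c a) →
      (p : ℤ) ^ N₁ ∣ MvPolynomial.eval (fun q : (k : ι) × Mon n (e k + 1) => c q.1 q.2) Δ := by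
    intro c hcx hst
    by_contra hnd
    apply hst
    have hcK : (ic c ℚ_[p] : E) ∈ K := by
      refine ⟨⟨?_, subset_closure hcx⟩, ?_⟩
      · intro k _ m _
        rw [mem_closedBall_zero_iff]
        exact Padic.norm_int_le_one _
      · have e1 : ev (ic c ℚ_[p]) =
            ((MvPolynomial.eval (fun q : (k : ι) × Mon n (e k + 1) => c q.1 q.2) Δ : ℤ) : ℚ_[p]) := by
          have := MvPolynomial.aeval_algebraMap_apply (R := ℤ) (A := ℤ) ℚ_[p]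
            (fun q : (k : ι) × Mon n (e k + 1) => c q.1 q.2) Δ
          simp only [ev]
          rw [← MvPolynomial.coe_aeval_eq_eval]
          simpa [Function.comp_def, ic] using this
        show (p : ℝ) ^ (-(N₁ : ℤ)) ≤ ‖ev (ic c ℚ_[p])‖
        rw [e1]
        rw [← Padic.norm_int_le_pow_iff_dvd, not_le] at hnd
        exact hnd.le
    have hmem := hcov hcK
    simp only [Set.mem_iUnion] at hmem
    obtain ⟨c₁, hc₁, hball⟩ := hmem
    have hd : ∀ k m, ‖(c k m : ℚ_[p]) - c₁ k m‖ < δ c₁ := by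
      intro k m
      rw [Metric.mem_ball] at hball
      have h5 := (dist_pi_lt_iff (hδ c₁ (htK c₁ hc₁))).1 hball k
      have h6 := (dist_pi_lt_iff (hδ c₁ (htK c₁ hc₁))).1 h5 m
      rw [dist_eq_norm] at h6
      exact h6
    choose a ha using fun i => approx p (X c₁ i) (hX1 c₁ (htK c₁ hc₁) i) N
    refine ⟨a, fun c' a' hc' ha' => hX2 c₁ (htK c₁ hc₁) _ _ ?_ ?_⟩
    · intro k m
      have h5 : ‖((c' k m - c k m : ℤ) : ℚ_[p])‖ < δ c₁ :=
        lt_of_le_of_lt ((Padic.norm_int_le_pow_iff_dvd _ N).2 (by exact_mod_cast hc' k m)) (hN c₁ hc₁)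
      have h6 : (ic c' ℚ_[p] k m : ℚ_[p]) - c₁ k m =
          ((c' k m - c k m : ℤ) : ℚ_[p]) + ((c k m : ℚ_[p]) - c₁ k m) := by
        unfold ic
        push_cast
        ring
      rw [h6]
      exact lt_of_le_of_lt (Padic.nonarchimedean _ _) (max_lt h5 (hd k m))
    · intro i
      have h5 : ‖((a' i - a i : ℤ) : ℚ_[p])‖ < δ c₁ :=
        lt_of_le_of_lt ((Padic.norm_int_le_pow_iff_dvd _ N).2 (by exact_mod_cast ha' i)) (hN c₁ hc₁)
      have h6 : ((a' i : ℤ) : ℚ_[p]) - X c₁ i =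
          ((a' i - a i : ℤ) : ℚ_[p]) + ((a i : ℚ_[p]) - X c₁ i) := by
        push_cast
        ring
      rw [h6]
      exact lt_of_le_of_lt (Padic.nonarchimedean _ _)
        (max_lt h5 (lt_of_le_of_lt (ha i) (hN c₁ hc₁)))
  refine ⟨N, H₁, fun H hH => ?_⟩
  refine le_trans ?_ (le_trans (hcount H hH) (le_of_eq ?_))
  · rw [Nat.cast_le]
    refine card_le_card_of_injOn (fun c => fun q : (k : ι) × Mon n (e k + 1) => c q.1 q.2) ?_ ?_
    · intro c hc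
      obtain ⟨hc1, hc2, hc3⟩ := mem_filter.1 (mem_coe.1 hc)
      refine mem_coe.2 (mem_filter.2 ⟨?_, hexc c hc2 hc3⟩)
      rw [Fintype.mem_piFinset]
      intro q
      exact Fintype.mem_piFinset.1 (Fintype.mem_piFinset.1 hc1 q.1) q.2
    · intro c _ c' _ h
      funext k m
      exact congrFun h ⟨k, m⟩
  · rw [Fintype.card_sigma]
    rfl

end Pool.Agent.N712.PN
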